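import Pool.Agent.C4N.Stm

/-!
# C4N, module ST0: the first state
-/

set_option autoImplicit false

open scoped BigOperators Classical

noncomputable section

namespace Pool.Agent.C4N.H6

open Finset

variable {V : Type} [Fintype V]

theorem card_nbr (R : SimpleGraph V) (v : V) : (univ.filter fun u => R.Adj v u).card = dg R v := by
  unfold dg
  rw [← Set.ncard_coe_finset]
  congr 1
  ext u
  simp

theorem npw_ind (R : SimpleGraph V) (a : ℕ) (x y : V) :
    npw (ind R) a x y =
      (((Sq V a x y).filter fun z => ∀ i : Fin a, R.Adj (z i.castSucc) (z i.succ)).card : ℝ) := by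
  unfold npw ind
  rw [← Finset.sum_boole]
  refine Finset.sum_congr rfl fun z _ => ?_
  rw [Finset.prod_boole]
  simp

/-- walks with `n` steps from `x` -/
def wk (R : SimpleGraph V) (n : ℕ) (x : V) : Finset (Fin (n + 1) → V) :=
  univ.filter fun z => z 0 = x ∧ ∀ i : Fin n, R.Adj (z i.castSucc) (z i.succ)

theorem card_wk (R : SimpleGraph V) (D : ℕ) (hD : ∀ v, dg R v ≤ D) (n : ℕ) (x : V) :
    (wk R n x).card ≤ D ^ n := by
  induction n with
  | zero =>
    rw [pow_zero, Finset.card_le_one]
    intro z hz z' hz'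
    unfold wk at hz hz'
    rw [mem_filter] at hz hz'
    funext i
    rw [Fin.fin_one_eq_zero i, hz.2.1, hz'.2.1]
  | succ n ih =>
    have h1 := Finset.card_le_mul_card_image (f := fun z : Fin (n + 2) → V => Fin.init z)
      (wk R (n + 1) x) D ?_
    · refine h1.trans ?_
      rw [pow_succ, mul_comm]
      refine Nat.mul_le_mul_right D (le_trans (Finset.card_le_card ?_) ih)
      intro z' hz'
      rw [mem_image] at hz'
      obtain ⟨z, hz, rfl⟩ := hz'
      unfold wk at hz ⊢
      rw [mem_filter] at hz ⊢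
      refine ⟨mem_univ _, ?_, fun i => ?_⟩
      · rw [← hz.2.1]
        rfl
      · have h2 := hz.2.2 i.castSucc
        rw [Fin.succ_castSucc] at h2
        exact h2
    · intro z' _
      refine le_trans ?_ (hD (z' (Fin.last n)))
      rw [← card_nbr]
      refine Finset.card_le_card_of_injOn (fun z => z (Fin.last (n + 1))) ?_ ?_
      · intro z hz
        rw [Finset.mem_coe, mem_filter] at hz
        obtain ⟨hz1, hz2⟩ := hz
        unfold wk at hz1
        rw [mem_filter] at hz1
        rw [Finset.mem_coe, mem_filter]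
        refine ⟨mem_univ _, ?_⟩
        have h2 := hz1.2.2 (Fin.last n)
        rw [Fin.succ_last] at h2
        rw [← hz2]
        exact h2
      · intro z hz z₂ hz₂ h
        rw [Finset.mem_coe, mem_filter] at hz hz₂
        have h3 : Fin.init z = Fin.init z₂ := hz.2.trans hz₂.2.symm
        funext i
        refine Fin.lastCases h (fun j => ?_) i
        exact congrFun h3 j

theorem card_two (R : SimpleGraph V) (hc : C4free R) (D : ℕ) (hD : ∀ v, dg R v ≤ D) (b : ℕ)
    (x y : V) (h : x ≠ y ∨ 3 ≤ b + 2) :
    ((Sq V (b + 2) x y).filter fun z => ∀ i : Fin (b + 2),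
      R.Adj (z i.castSucc) (z i.succ)).card ≤ D ^ b := by
  refine le_trans ?_ (card_wk R D hD b x)
  have key : ∀ z ∈ (Sq V (b + 2) x y).filter (fun z => ∀ i : Fin (b + 2),
      R.Adj (z i.castSucc) (z i.succ)), z 0 = x ∧ z (Fin.last (b + 2)) = y ∧
      (∀ i : Fin (b + 2), R.Adj (z i.castSucc) (z i.succ)) ∧
      z (Fin.last b).castSucc.castSucc ≠ y := by
    intro z hz
    rw [mem_filter] at hz
    obtain ⟨hz1, hz2⟩ := hz
    unfold Sq at hz1
    rw [mem_filter] at hz1
    obtain ⟨-, h0, hl, hi, hj⟩ := hz1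
    refine ⟨h0, hl, hz2, fun hcon => ?_⟩
    rcases Nat.eq_zero_or_pos b with hb | hb
    · subst hb
      rcases h with h | h
      · apply h
        rw [← h0, ← hcon]
        rfl
      · omega
    · have h5 := hj (Fin.last b).castSucc.castSucc (Fin.last (b + 2))
        (by show 1 ≤ b; exact hb) (by show 1 ≤ b + 2; omega) (hcon.trans hl.symm)
      have h6 := congrArg Fin.val h5
      simp at h6
  refine Finset.card_le_card_of_injOn (fun z (i : Fin (b + 1)) => z i.castSucc.castSucc) ?_ ?_
  · intro z hz
    obtain ⟨h0, -, ha, -⟩ := key z hz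
    rw [Finset.mem_coe]
    unfold wk
    rw [mem_filter]
    refine ⟨mem_univ _, h0, fun i => ?_⟩
    have h2 := ha i.castSucc.castSucc
    rw [Fin.succ_castSucc, Fin.succ_castSucc] at h2
    exact h2
  · intro z hz z' hz' hzz
    obtain ⟨h0, hl, ha, hne⟩ := key z hz
    obtain ⟨h0', hl', ha', hne'⟩ := key z' hz'
    have e1 : ∀ i : Fin (b + 1), z i.castSucc.castSucc = z' i.castSucc.castSucc := fun i =>
      congrFun hzz i
    have e2 : z (Fin.last (b + 1)).castSucc = z' (Fin.last (b + 1)).castSucc := by
      have a1 := ha (Fin.last b).castSucc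
      have a2 := ha (Fin.last (b + 1))
      have a1' := ha' (Fin.last b).castSucc
      have a2' := ha' (Fin.last (b + 1))
      rw [Fin.succ_last, hl] at a2
      rw [Fin.succ_last, hl'] at a2'
      rw [Fin.succ_castSucc, Fin.succ_last] at a1 a1'
      rw [← e1] at a1'
      exact hc _ _ _ _ hne a1 a2.symm a1' a2'.symm
    funext i
    refine Fin.lastCases (hl.trans hl'.symm) (fun j => ?_) i
    exact Fin.lastCases e2 (fun j' => e1 j') j

/-- ST0 -/
theorem st0 : ST0Stmt := by
  intro L k hk V _ R hc hd
  have hk0 : (0 : ℝ) < k := by exact_mod_cast (by omega : 0 < k)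
  refine ⟨hc, fun v => (hd v).ge, fun v => by rw [hd v]; omega, fun v => ?_, ?_⟩
  · have h1 : {u | R.Adj v u ∧ dg R u ≠ 2 * k} = ∅ := by
      ext u
      simp [hd u]
    rw [h1, Set.ncard_empty, Nat.cast_zero]
    positivity
  · intro a x y ha haL hxy
    rw [npw_ind]
    have hpow : (1 : ℝ) ≤ 2 ^ L := one_le_pow₀ (by norm_num)
    obtain ⟨b, rfl | rfl⟩ : ∃ b, a = 1 ∨ a = b + 2 := ⟨a - 2, by omega⟩
    · have h1 : ((Sq V 1 x y).filter fun z => ∀ i : Fin 1,
          R.Adj (z i.castSucc) (z i.succ)).card ≤ 1 := by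
        rw [Finset.card_le_one]
        intro z hz z' hz'
        rw [mem_filter] at hz hz'
        have h2 := hz.1
        have h3 := hz'.1
        unfold Sq at h2 h3
        rw [mem_filter] at h2 h3
        funext i
        refine Fin.lastCases (h2.2.2.1.trans h3.2.2.1.symm) (fun j => ?_) i
        rw [Fin.fin_one_eq_zero j]
        exact h2.2.1.trans h3.2.1.symm
      calc (((Sq V 1 x y).filter fun z => ∀ i : Fin 1,
          R.Adj (z i.castSucc) (z i.succ)).card : ℝ) ≤ 1 := by exact_mod_cast h1
        _ = 1 * 1 := by norm_num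
        _ ≤ 2 ^ L * max 1 ((k : ℝ) ^ 1 / (k : ℝ) ^ 2) :=
          mul_le_mul hpow (le_max_left _ _) (by norm_num) (by positivity)
    · have h1 := card_two R hc (2 * k) (fun v => (hd v).le) b x y hxy
      calc (((Sq V (b + 2) x y).filter fun z => ∀ i : Fin (b + 2),
          R.Adj (z i.castSucc) (z i.succ)).card : ℝ) ≤ ((2 * k) ^ b : ℕ) := by exact_mod_cast h1
        _ = 2 ^ b * (k : ℝ) ^ b := by push_cast; rw [mul_pow]
        _ ≤ 2 ^ L * max 1 ((k : ℝ) ^ (b + 2) / (k : ℝ) ^ 2) := by
          apply mul_le_mul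
          · exact pow_le_pow_right₀ (by norm_num) (by omega)
          · refine le_trans (le_of_eq ?_) (le_max_right _ _)
            rw [pow_add]
            field_simp
          · positivity
          · positivity

end Pool.Agent.C4N.H6
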