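import Pool.Agent.C4N.Stm2
import Pool.Agent.Helper76_LAG.Near
import Pool.Agent.Helper10_LAG.Uniq
import Pool.Agent.Helper7_LAG.Cmp2

/-!
# C4N: module FIN2 (helper6)

The end: a graph of large girth with degrees `2 K`, `2 K + 1`, `2 K + 2`, few vertices of degree
`≠ 2 K`, those of degree `2 K + 2` separated, is a union of `K + 1` linear forests.
-/

set_option autoImplicit false

namespace Pool.Agent.C4N.H6

open SimpleGraph Pool.Agent.LAG Pool.Agent.LLG Pool.Agent.CG

section hall

variable {V : Type} [Fintype V] (A : SimpleGraph V) (K : ℕ)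

/-- the demands -/
abbrev Dm : Type := {p : V × Fin 2 // 2 * K + p.2.val < C4N.dg A p.1}

variable {A K}

/-- the private neighbours -/
lemma hall (hd : ∀ v, 2 * K ≤ C4N.dg A v ∧ C4N.dg A v ≤ 2 * K + 2)
    (hs : ∀ v, 10 * {u | A.Adj v u ∧ C4N.dg A u ≠ 2 * K}.ncard ≤ K) :
    ∃ f : Dm A K → V, Function.Injective f ∧ ∀ p, A.Adj p.1.1 (f p) ∧ C4N.dg A (f p) = 2 * K := by
  classical
  let t : Dm A K → Finset V := fun p => Finset.univ.filter fun u => A.Adj p.1.1 u ∧ C4N.dg A u = 2 * K
  have key : ∀ s : Finset (Dm A K), s.card ≤ (s.biUnion t).card := by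
    intro s
    rcases Finset.eq_empty_or_nonempty s with rfl | ⟨p0, hp0⟩
    · simp
    -- K is positive
    have hK : 1 ≤ K := by
      by_contra h0
      have hK0 : K = 0 := by omega
      subst hK0
      have h1 := p0.2
      have h2 : (A.neighborSet p0.1.1).ncard ≠ 0 := by
        have : C4N.dg A p0.1.1 = (A.neighborSet p0.1.1).ncard := rfl
        omega
      obtain ⟨u, hu⟩ := Set.nonempty_of_ncard_ne_zero h2
      have hu' : A.Adj p0.1.1 u := hu
      have h3 : {w | A.Adj p0.1.1 w ∧ C4N.dg A w ≠ 2 * 0}.ncard ≠ 0 := by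
        refine Set.ncard_ne_zero_of_mem (a := u) ⟨hu', ?_⟩ (Set.toFinite _)
        have h4 : (A.neighborSet u).ncard ≠ 0 :=
          Set.ncard_ne_zero_of_mem (a := p0.1.1) hu'.symm (Set.toFinite _)
        have : C4N.dg A u = (A.neighborSet u).ncard := rfl
        omega
      have h5 := hs p0.1.1
      omega
    -- count
    have hab : ∀ p ∈ s, 2 * K - K / 10 ≤
        ((s.biUnion t).bipartiteAbove (fun (p : Dm A K) (u : V) => A.Adj p.1.1 u) p).card := by
      intro p hp
      have e1 : A.neighborSet p.1.1 ⊆ (↑((s.biUnion t).bipartiteAbove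
          (fun (p : Dm A K) (u : V) => A.Adj p.1.1 u) p) : Set V) ∪
          {u | A.Adj p.1.1 u ∧ C4N.dg A u ≠ 2 * K} := by
        intro u hu
        have hu' : A.Adj p.1.1 u := hu
        by_cases h : C4N.dg A u = 2 * K
        · left
          rw [Finset.mem_coe, Finset.mem_bipartiteAbove]
          refine ⟨Finset.mem_biUnion.2 ⟨p, hp, ?_⟩, hu'⟩
          exact Finset.mem_filter.2 ⟨Finset.mem_univ _, hu', h⟩
        · right
          exact ⟨hu', h⟩
      have e2 := (Set.ncard_le_ncard e1 (Set.toFinite _)).trans (Set.ncard_union_le _ _)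
      rw [Set.ncard_coe_finset] at e2
      have e3 := hs p.1.1
      have e4 := (hd p.1.1).1
      have e5 : C4N.dg A p.1.1 = (A.neighborSet p.1.1).ncard := rfl
      omega
    have hbe : ∀ u ∈ s.biUnion t,
        (s.bipartiteBelow (fun (p : Dm A K) (u : V) => A.Adj p.1.1 u) u).card ≤ 2 * (K / 10) := by
      intro u _
      have e1 : (s.bipartiteBelow (fun (p : Dm A K) (u : V) => A.Adj p.1.1 u) u).card ≤
          (((Finset.univ.filter fun w => A.Adj u w ∧ C4N.dg A w ≠ 2 * K) : Finset V) ×ˢ
            (Finset.univ : Finset (Fin 2))).card := by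
        refine Finset.card_le_card_of_injOn (fun p => p.1) ?_ ?_
        · intro p hp
          have hp' := (Finset.mem_bipartiteBelow (fun (p : Dm A K) (u : V) => A.Adj p.1.1 u)).1 hp
          have h1 := p.2
          refine Finset.mem_coe.2 (Finset.mem_product.2 ⟨Finset.mem_filter.2 ⟨Finset.mem_univ _, hp'.2.symm, ?_⟩,
            Finset.mem_univ _⟩)
          show C4N.dg A p.1.1 ≠ 2 * K
          omega
        · intro p _ q _ h
          exact Subtype.ext h
      have e2 := hs u
      rw [Finset.card_product, Finset.card_univ, Fintype.card_fin] at e1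
      have e3 : {w | A.Adj u w ∧ C4N.dg A w ≠ 2 * K}.ncard =
          ((Finset.univ.filter fun w => A.Adj u w ∧ C4N.dg A w ≠ 2 * K) : Finset V).card := by
        rw [← Set.ncard_coe_finset]
        congr 1
        ext w
        simp
      rw [e3] at e2
      omega
    have h1 := Finset.card_mul_le_card_mul (fun (p : Dm A K) (u : V) => A.Adj p.1.1 u) hab hbe
    have h2 : 2 * (K / 10) ≤ 2 * K - K / 10 := by omega
    have h3 : (s.biUnion t).card * (2 * (K / 10)) ≤ (s.biUnion t).card * (2 * K - K / 10) :=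
      Nat.mul_le_mul_left _ h2
    have h4 : 0 < 2 * K - K / 10 := by omega
    exact Nat.le_of_mul_le_mul_right (h1.trans h3) h4
  obtain ⟨f, hf, hft⟩ := (Finset.all_card_le_biUnion_card_iff_exists_injective t).1 key
  refine ⟨f, hf, fun p => ?_⟩
  exact (Finset.mem_filter.1 (hft p)).2

end hall

/-- FIN2. -/
theorem fin2 (hG : GOAStmt) : FIN2Stmt := by
  classical
  obtain ⟨g, hg, hgood⟩ := hG
  refine ⟨g, ?_⟩
  intro K V _ A hBig hd hs hsep
  obtain ⟨f, hfi, hf⟩ := hall hd hs
  -- no target is a source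
  have hns : ∀ p q : Dm A K, f p ≠ q.1.1 := by
    intro p q h
    have h1 := (hf p).2
    have h2 := q.2
    rw [h] at h1
    omega
  let J : SimpleGraph V :=
    { Adj := fun a b => ∃ p : Dm A K, (p.1.1 = a ∧ f p = b) ∨ (p.1.1 = b ∧ f p = a)
      symm := ⟨fun a b h => by
        obtain ⟨p, h | h⟩ := h
        · exact ⟨p, Or.inr h⟩
        · exact ⟨p, Or.inl h⟩⟩
      loopless := ⟨fun a h => by
        obtain ⟨p, ⟨h1, h2⟩ | ⟨h1, h2⟩⟩ := h
        · exact hns p p (h2.trans h1.symm)
        · exact hns p p (h2.trans h1.symm)⟩ }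
  have hJadj : ∀ a b, J.Adj a b ↔ ∃ p : Dm A K, (p.1.1 = a ∧ f p = b) ∨ (p.1.1 = b ∧ f p = a) :=
    fun a b => Iff.rfl
  have hJA : J ≤ A := by
    intro a b h
    obtain ⟨p, ⟨rfl, rfl⟩ | ⟨rfl, rfl⟩⟩ := (hJadj a b).1 h
    · exact (hf p).1
    · exact (hf p).1.symm
  -- the centres
  let c : V → V := fun x => if h : ∃ p, f p = x then h.choose.1.1 else x
  have hcf : ∀ p, c (f p) = p.1.1 := by
    intro p
    have h : ∃ q, f q = f p := ⟨p, rfl⟩
    have h1 : c (f p) = h.choose.1.1 := dif_pos h
    rw [h1, hfi h.choose_spec]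
  have hcn : ∀ x, (¬ ∃ p, f p = x) → c x = x := fun x h => dif_neg h
  have hcs : ∀ p : Dm A K, c p.1.1 = p.1.1 := fun p => hcn _ (by
    rintro ⟨q, hq⟩
    exact hns q p hq)
  have hcJ : ∀ a b, J.Adj a b → c a = c b := by
    intro a b h
    obtain ⟨p, ⟨rfl, rfl⟩ | ⟨rfl, rfl⟩⟩ := (hJadj a b).1 h
    · rw [hcf, hcs]
    · rw [hcf, hcs]
  have hcR : ∀ a b, J.Reachable a b → c a = c b := by
    rintro a b ⟨w⟩
    induction w with
    | nil => rfl
    | cons h _ ih => exact (hcJ _ _ h).trans ih
  have hst : ∀ p : Dm A K, J.Adj p.1.1 (f p) := fun p => ⟨p, Or.inl ⟨rfl, rfl⟩⟩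
  have hnear : ∀ a b, J.Reachable a b → near J 2 a b := by
    intro a b h
    have h1 := hcR a b h
    by_cases ha : ∃ p, f p = a
    · obtain ⟨p, rfl⟩ := ha
      rw [hcf] at h1
      by_cases hb : ∃ q, f q = b
      · obtain ⟨q, rfl⟩ := hb
        rw [hcf] at h1
        have h2 : near J 1 (f p) p.1.1 := near_adj (hst p).symm
        have h3 : near J 1 q.1.1 (f q) := near_adj (hst q)
        rw [← h1] at h3
        exact near_trans h2 h3
      · rw [hcn b hb] at h1
        rw [← h1]
        exact near_mono (by norm_num) (near_adj (hst p).symm)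
    · rw [hcn a ha] at h1
      by_cases hb : ∃ q, f q = b
      · obtain ⟨q, rfl⟩ := hb
        rw [hcf] at h1
        rw [h1]
        exact near_mono (by norm_num) (near_adj (hst q))
      · rw [hcn b hb] at h1
        rw [h1]
        exact near_refl _ _
  have hm3 : ∀ a, {b | J.Reachable a b}.ncard ≤ 3 := by
    intro a
    -- the fibre of the centre
    have h1 : {b | J.Reachable a b} ⊆ insert (c a) (f '' {p : Dm A K | p.1.1 = c a}) := by
      intro b hb
      have h2 := hcR a b hb
      by_cases hb' : ∃ q, f q = b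
      · obtain ⟨q, rfl⟩ := hb'
        rw [hcf] at h2
        exact Or.inr ⟨q, h2.symm, rfl⟩
      · rw [hcn b hb'] at h2
        exact Or.inl h2.symm
    have h3 : {p : Dm A K | p.1.1 = c a}.ncard ≤ 2 := by
      have h4 : {p : Dm A K | p.1.1 = c a}.ncard ≤ (Set.univ : Set (Fin 2)).ncard := by
        refine Set.ncard_le_ncard_of_injOn (fun p => p.1.2) (fun _ _ => Set.mem_univ _) ?_
          (Set.toFinite _)
        intro p hp q hq h
        have hp' : p.1.1 = c a := hp
        have hq' : q.1.1 = c a := hq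
        exact Subtype.ext (Prod.ext (hp'.trans hq'.symm) h)
      rw [Set.ncard_univ, Nat.card_eq_fintype_card, Fintype.card_fin] at h4
      exact h4
    calc {b | J.Reachable a b}.ncard ≤ (insert (c a) (f '' {p : Dm A K | p.1.1 = c a})).ncard :=
          Set.ncard_le_ncard h1 (Set.toFinite _)
      _ ≤ (f '' {p : Dm A K | p.1.1 = c a}).ncard + 1 := Set.ncard_insert_le _ _
      _ ≤ {p : Dm A K | p.1.1 = c a}.ncard + 1 := by
          have := Set.ncard_image_le (f := f) (Set.toFinite {p : Dm A K | p.1.1 = c a})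
          omega
      _ ≤ 3 := by omega
  -- the degrees of J
  have hJs : ∀ v, C4N.dg A v ≠ 2 * K → (J.neighborSet v).ncard = C4N.dg A v - 2 * K := by
    intro v hv
    have e1 : J.neighborSet v = f '' {p : Dm A K | p.1.1 = v} := by
      ext b
      constructor
      · intro h
        obtain ⟨p, ⟨h1, h2⟩ | ⟨h1, h2⟩⟩ := (hJadj v b).1 h
        · exact ⟨p, h1, h2⟩
        · exfalso
          rw [← h2] at hv
          exact hv (hf p).2
      · rintro ⟨p, h1, h2⟩
        exact ⟨p, Or.inl ⟨h1, h2⟩⟩
    rw [e1, Set.ncard_image_of_injective _ hfi]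
    have e2 : {p : Dm A K | p.1.1 = v}.ncard = {i : Fin 2 | 2 * K + i.val < C4N.dg A v}.ncard := by
      refine Set.ncard_congr (fun p _ => p.1.2) ?_ ?_ ?_
      · rintro p (hp : p.1.1 = v)
        have h1 := p.2
        rw [hp] at h1
        exact h1
      · intro p q hp hq h
        exact Subtype.ext (Prod.ext (Eq.trans (show p.1.1 = v from hp) (show v = q.1.1 from Eq.symm hq)) h)
      · intro i hi
        exact ⟨⟨(v, i), hi⟩, rfl, rfl⟩
    rw [e2]
    have h1 := hd v
    have h2 : C4N.dg A v = 2 * K + 1 ∨ C4N.dg A v = 2 * K + 2 := by omega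
    rcases h2 with h2 | h2
    · have e3 : {i : Fin 2 | 2 * K + i.val < C4N.dg A v} = {0} := by
        ext i
        simp only [Set.mem_ofPred_eq, Set.mem_singleton_iff, h2]
        constructor
        · intro h
          apply Fin.ext
          simp
          omega
        · rintro rfl
          simp
      rw [e3, Set.ncard_singleton]
      omega
    · have e3 : {i : Fin 2 | 2 * K + i.val < C4N.dg A v} = Set.univ := by
        ext i
        have := i.isLt
        simp only [Set.mem_ofPred_eq, Set.mem_univ, iff_true, h2]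
        omega
      rw [e3, Set.ncard_univ, Nat.card_eq_fintype_card, Fintype.card_fin]
      omega
  have hJt : ∀ v, C4N.dg A v = 2 * K → (J.neighborSet v).ncard ≤ 1 := by
    intro v hv
    rw [Set.ncard_le_one (Set.toFinite _)]
    intro a ha b hb
    obtain ⟨p, hp⟩ := (hJadj v a).1 ha
    obtain ⟨q, hq⟩ := (hJadj v b).1 hb
    have h1 : ∀ p : Dm A K, p.1.1 ≠ v := by
      intro p h
      have := p.2
      rw [h] at this
      omega
    rcases hp with ⟨hp, -⟩ | ⟨hp1, hp2⟩
    · exact absurd hp (h1 p)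
    rcases hq with ⟨hq, -⟩ | ⟨hq1, hq2⟩
    · exact absurd hq (h1 q)
    have h2 : p = q := hfi (hp2.trans hq2.symm)
    rw [← hp1, ← hq1, h2]
  have hJ1 : ∀ v, C4N.dg A v ≠ 2 * K + 2 → (J.neighborSet v).ncard ≤ 1 := by
    intro v hv
    by_cases h : C4N.dg A v = 2 * K
    · exact hJt v h
    · rw [hJs v h]
      have := hd v
      omega
  have hJ2 : ∀ v, (J.neighborSet v).ncard ≤ 2 := by
    intro v
    by_cases h : C4N.dg A v = 2 * K + 2
    · rw [hJs v (by omega)]
      omega
    · exact (hJ1 v h).trans (by norm_num)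
  -- J is acyclic
  have hJac : J.IsAcyclic := by
    intro v p hp
    have h1 : g < (p.mapLe hJA).length := hBig v _ (hp.mapLe hJA)
    have h2 : p.length = p.support.tail.length := by
      rw [List.length_tail, Walk.length_support]
      omega
    have h3 : p.support.tail.Nodup := hp.support_nodup
    have h4 : (p.support.tail.toFinset : Set V) ⊆ {b | J.Reachable v b} := by
      intro b hb
      rw [Finset.mem_coe, List.mem_toFinset] at hb
      have hb' : b ∈ p.support := List.mem_of_mem_tail hb
      exact ⟨p.takeUntil b hb'⟩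
    have h5 := Set.ncard_le_ncard h4 (Set.toFinite _)
    rw [Set.ncard_coe_finset, List.toFinset_card_of_nodup h3, ← h2] at h5
    have h6 := hm3 v
    rw [Walk.length_mapLe] at h1
    omega
  -- the state
  have hGG : A \ (A \ J) = J := by
    rw [sdiff_sdiff_right_self]
    exact inf_eq_right.2 hJA
  have hdeg : ∀ v, ((A \ J).neighborSet v).ncard ≤ 2 * K := by
    intro v
    have e : (A \ J).neighborSet v = A.neighborSet v \ J.neighborSet v := by
      ext u; simp
    have hs : J.neighborSet v ⊆ A.neighborSet v := fun u hu => hJA hu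
    rw [e, Set.ncard_sdiff hs (Set.toFinite _)]
    have h1 : C4N.dg A v = (A.neighborSet v).ncard := rfl
    by_cases h : C4N.dg A v = 2 * K
    · omega
    · have h2 := hJs v h
      omega
  let Q : Fin 4 → Set V := fun i => if i = 0 then {v | C4N.dg A v = 2 * K + 2} else ∅
  have hQ0 : ∀ i x, x ∈ Q i → i = 0 ∧ C4N.dg A x = 2 * K + 2 := by
    intro i x hx
    by_cases h : i = 0
    · have h1 : Q i = {v | C4N.dg A v = 2 * K + 2} := if_pos h
      rw [h1] at hx
      exact ⟨h, hx⟩
    · have h1 : Q i = ∅ := if_neg h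
      rw [h1] at hx
      exact hx.elim
  have hQ0' : Q 0 = {v | C4N.dg A v = 2 * K + 2} := if_pos rfl
  have hS : SttC A (A \ J) Q K g := by
    refine ⟨sdiff_le, ?_, ?_, hBig, hdeg, ?_, ?_, ?_⟩
    · rw [hGG]; exact hnear
    · rw [hGG]; exact hm3
    · intro i j x hx y hy hne hn
      exact hsep x y (hQ0 i x hx).2 (hQ0 j y hy).2 hne (near_mono (by norm_num) hn)
    · intro x hx y hy hne hn
      exact hsep x y (hQ0 0 x hx).2 (hQ0 0 y hy).2 hne (near_mono (by norm_num) hn)
    · intro i hi x hx
      exact absurd (hQ0 i x hx).1 hi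
  obtain ⟨F, N, hF, hN, hsup, hQ, hu⟩ := hgood K V A (A \ J) Q hS
  rw [hGG] at hu hQ
  have hG' : Big A 3 := hBig.mono (by omega)
  -- the last forest
  have hMN := Pool.Agent.LAG.cmp2 V J N hJac hJ2
    (by
      intro u v huv
      apply hJ1
      intro hu'
      exact hQ u v huv u (Set.mem_iUnion.2 ⟨0, by rw [hQ0']; exact hu'⟩) (Reachable.refl u))
    (by
      intro u v huv hr
      obtain ⟨p, hp⟩ := hnear u v hr
      have h1 := hN huv
      rw [sdiff_adj] at h1
      have hpath : (p.mapLe hJA).bypass.IsPath := Walk.bypass_isPath _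
      have hlen : (p.mapLe hJA).bypass.length ≤ 2 := by
        refine (Walk.length_bypass_le_length _).trans ?_
        simpa using hp
      have h2 := Pool.Agent.LAG.uniq V A 3 hG' u v (p.mapLe hJA).bypass h1.1.toWalk hpath
        (by
          have := h1.1.ne
          rw [Walk.isPath_def]
          simp [Adj.toWalk, this])
        (by
          have : (h1.1.toWalk).length = 1 := by simp
          omega)
      have h3 : s(u, v) ∈ (p.mapLe hJA).edges := by
        apply Walk.edges_bypass_subset_edges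
        rw [h2]
        simp [Adj.toWalk]
      have h4 : s(u, v) ∈ p.edges := by simpa using h3
      exact h1.2 (Walk.edges_subset_edgeSet p h4))
    hu
  let H : Fin (K + 1) → SimpleGraph V := fun i =>
    if h : i.val < K then F ⟨i.val, h⟩ else J ⊔ N
  have hH1 : ∀ (i : Fin (K + 1)) (h : i.val < K), H i = F ⟨i.val, h⟩ := fun i h => dif_pos h
  have hH2 : ∀ (i : Fin (K + 1)), ¬ i.val < K → H i = J ⊔ N := fun i h => dif_neg h
  refine ⟨H, ?_, ?_⟩
  · intro i
    by_cases h : i.val < K
    · rw [hH1 i h]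
      exact ⟨(hF _).2.1, (hF _).2.2⟩
    · rw [hH2 i h]
      exact hMN
  · apply le_antisymm
    · apply iSup_le
      intro i
      by_cases h : i.val < K
      · rw [hH1 i h]
        exact (hF _).1.trans sdiff_le
      · rw [hH2 i h]
        exact sup_le hJA (hN.trans sdiff_le)
    · intro u v huv
      rw [iSup_adj]
      by_cases hm : J.Adj u v
      · refine ⟨Fin.last _, ?_⟩
        rw [hH2 _ (by simp)]
        exact Or.inl hm
      · have h1 : ((⨆ i, F i) ⊔ N).Adj u v := by
          rw [hsup, sdiff_adj]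
          exact ⟨huv, hm⟩
        rw [sup_adj, iSup_adj] at h1
        rcases h1 with ⟨i, hi⟩ | h1
        · refine ⟨i.castSucc, ?_⟩
          rw [hH1 i.castSucc (by simp)]
          exact hi
        · refine ⟨Fin.last _, ?_⟩
          rw [hH2 _ (by simp)]
          exact Or.inr h1

end Pool.Agent.C4N.H6
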