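import Pool.Agent.C4N.Stm2
import Pool.Agent.Helper9_CG.All

/-!
# C4N: module GOA (helper6)

All states of the girth theorem have the conclusion, for all `k` with the same girth.
-/

set_option autoImplicit false

namespace Pool.Agent.C4N.H6

open SimpleGraph Pool.Agent.LAG Pool.Agent.LLG Pool.Agent.CG

lemma goodC_zero (g : ℕ) : GoodC 0 g := by
  intro V _ A R Q h
  have hR : R = ⊥ := by
    rw [eq_bot_iff]
    intro x y hxy
    have h1 := h.deg x
    have h2 : (R.neighborSet x).ncard ≠ 0 := by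
      exact Set.ncard_ne_zero_of_mem (show y ∈ R.neighborSet x from hxy) (Set.toFinite _)
    omega
  subst hR
  refine ⟨fun _ => ⊥, ⊥, fun i => i.elim0, le_rfl, ?_, ?_, ?_⟩
  · rw [sup_bot_eq]
    exact iSup_of_empty _
  · intro u v huv
    exact huv.elim
  · intro u v _ _ huv
    exact huv.elim

theorem goa0 (hS : StepcStmt) (hP : PullcStmt) (hB : BaseStmt)
    (hN : NumrcStmt) (hBa : BalcStmt) : GOAStmt := by
  obtain ⟨g0, Kc, hg0, hN⟩ := hN
  obtain ⟨h0, hh0⟩ : ∃ h0 : ℕ, 2 ^ 273 * (2 * Kc + 4) ^ 122 ≤ 3 ^ h0 :=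
    ⟨2 ^ 273 * (2 * Kc + 4) ^ 122, (Nat.lt_pow_self (by norm_num)).le⟩
  set h := g0 + h0 with hh
  have hg : 8000 ≤ 2 * h := by omega
  have key : ∀ k, GoodC k (2 * h) := by
    intro k
    induction k using Nat.strong_induction_on with
    | _ k ih =>
      rcases Nat.eq_zero_or_pos k with rfl | hk
      · exact goodC_zero _
      by_cases hK : Kc ≤ k
      · obtain ⟨T, hT, hR⟩ := hN k hK
        have hR' : NumRC k T (2 * h) := by
          obtain ⟨h2, s, c, j, b, d, w, h', N, n, hH, a, ℓ, Tm, L, Nc, η, M, h3, h4⟩ := hR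
          exact ⟨h2, s, c, j, b, d, w, h', N, n, hH, a, ℓ, Tm, L, Nc, η, M, by omega, h4⟩
        exact hP k (2 * h) hk (by omega) (hS k T (2 * h) hR' (ih _ (by omega)))
      · intro V _ A R Q hst
        refine hB k h 4 hk ?_ V A R _ (hBa V A R Q k (2 * h) (by omega) hst)
        calc 2 ^ 273 * (2 * k + 4) ^ 122 ≤ 2 ^ 273 * (2 * Kc + 4) ^ 122 := by
              exact Nat.mul_le_mul_left _ (Nat.pow_le_pow_left (by omega) _)
          _ ≤ 3 ^ h0 := hh0
          _ ≤ 3 ^ h := Nat.pow_le_pow_right (by norm_num) (by omega)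
  exact ⟨2 * h, hg, key⟩

/-- GOA. -/
theorem goa : GOAStmt :=
  goa0
    (CG.H53.stepc
      (CG.H46.matchc
        (CG.H31.rllc CG.H7.viod (CG.H26.pev CG.H7.wit CG.H53.vip CG.H7.psi) CG.H9.evd
          (CG.H9.countc (CG.H68.cluc (CG.H81.pick CG.H37.conn) LLG.H94.spr0)) CG.H26.kon LLG.H81.lllw)
        CG.H11.moog LLG.H56.den (LLG.H10.evs LLG.H7.hcnt LLG.H7.cycc) LLG.H48.ori CG.H61.petc)
      LLG.H48.jed LLG.H53.mach9 CG.H15.cand CG.H47.balc)
    CG.H48.pullc LLG.H7.base (CG.H9.numrc LLG.H10.numi) CG.H47.balc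

end Pool.Agent.C4N.H6
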